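import Pool.Agent.W5h11.Wheels.Lower

set_option autoImplicit false
set_option linter.unusedSectionVars false

namespace Pool.Agent.W5h11.Wheels

open SimpleGraph Finset

theorem adj_ll {q a b : ℕ} (i j : Fin q) : (extG q a b).Adj (.inl i) (.inl j) ↔ i ≠ j := Iff.rfl
theorem adj_lr {q a b : ℕ} (i : Fin q) (v) : (extG q a b).Adj (.inl i) (.inr v) ↔ True := Iff.rfl
theorem adj_rl {q a b : ℕ} (i : Fin q) (v) : (extG q a b).Adj (.inr v) (.inl i) ↔ True := Iff.rfl
theorem adj_rr {q a b : ℕ} (u v) : (extG q a b).Adj (.inr u) (.inr v) ↔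
  (sd u ≠ sd v ∨ (vl u ≠ vl v ∧ vl u / 2 = vl v / 2)) := Iff.rfl

theorem degree_sum (q a b : ℕ) (v : Fin q ⊕ (Fin a ⊕ Fin b)) :
    (extG q a b).degree v = ∑ w, if (extG q a b).Adj v w then 1 else 0 := by
  rw [← card_neighborFinset_eq_degree, neighborFinset_eq_filter, Finset.card_filter]

theorem deg_inl (q a b : ℕ) (i : Fin q) : q + a + b ≤ (extG q a b).degree (.inl i) + 1 := by
  rw [degree_sum, Fintype.sum_sum_type, Fintype.sum_sum_type]
  have h1 : ∑ j : Fin q, (if (extG q a b).Adj (.inl i) (.inl j) then 1 else 0) + 1 = q := by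
    have h2 : ∀ j : Fin q, (if (extG q a b).Adj (.inl i) (.inl j) then 1 else 0) +
        (if i = j then 1 else 0) = 1 := by
      intro j
      by_cases h : i = j
      · simp [adj_ll, h]
      · simp [adj_ll, h]
    have h3 := Finset.sum_congr (rfl : (Finset.univ : Finset (Fin q)) = Finset.univ)
      (fun j _ => h2 j)
    rw [Finset.sum_add_distrib, Finset.sum_ite_eq, if_pos (mem_univ _)] at h3
    rw [h3]
    simp
  have h4 : ∑ j : Fin a, (if (extG q a b).Adj (.inl i) (.inr (.inl j)) then 1 else 0) = a := by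
    simp [adj_lr, adj_rl]
  have h5 : ∑ j : Fin b, (if (extG q a b).Adj (.inl i) (.inr (.inr j)) then 1 else 0) = b := by
    simp [adj_lr, adj_rl]
  omega

theorem partner {a : ℕ} (x : Fin a) (hx : (x : ℕ) + 1 < a) :
    ∃ y : Fin a, (x : ℕ) ≠ y ∧ (x : ℕ) / 2 = (y : ℕ) / 2 := by
  rcases Nat.even_or_odd (x : ℕ) with h | h
  · obtain ⟨r, hr⟩ := h
    refine ⟨⟨x + 1, hx⟩, ?_, ?_⟩
    · simp
    · simp only
      omega
  · obtain ⟨r, hr⟩ := h
    refine ⟨⟨x - 1, by omega⟩, ?_, ?_⟩
    · simp only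
      omega
    · simp only
      omega

theorem deg_inr_inl (q a b : ℕ) (x : Fin a) :
    q + b + (if (x : ℕ) + 1 < a then 1 else 0) ≤ (extG q a b).degree (.inr (.inl x)) := by
  rw [degree_sum, Fintype.sum_sum_type, Fintype.sum_sum_type]
  have h4 : ∑ j : Fin q, (if (extG q a b).Adj (.inr (.inl x)) (.inl j) then 1 else 0) = q := by
    simp [adj_lr, adj_rl]
  have h5 : ∑ j : Fin b, (if (extG q a b).Adj (.inr (.inl x)) (.inr (.inr j)) then 1 else 0) =
      b := by
    simp [adj_rr, sd]
  have h6 : (if (x : ℕ) + 1 < a then 1 else 0) ≤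
      ∑ j : Fin a, (if (extG q a b).Adj (.inr (.inl x)) (.inr (.inl j)) then 1 else 0) := by
    split_ifs with hx
    · obtain ⟨y, hy⟩ := partner x hx
      have h7 : (extG q a b).Adj (.inr (.inl x)) (.inr (.inl y)) := Or.inr hy
      refine le_trans ?_ (Finset.single_le_sum (fun _ _ => Nat.zero_le _) (mem_univ y))
      rw [if_pos h7]
    · exact Nat.zero_le _
  omega

theorem deg_inr_inr (q a b : ℕ) (x : Fin b) :
    q + a + (if (x : ℕ) + 1 < b then 1 else 0) ≤ (extG q a b).degree (.inr (.inr x)) := by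
  rw [degree_sum, Fintype.sum_sum_type, Fintype.sum_sum_type]
  have h4 : ∑ j : Fin q, (if (extG q a b).Adj (.inr (.inr x)) (.inl j) then 1 else 0) = q := by
    simp [adj_lr, adj_rl]
  have h5 : ∑ j : Fin a, (if (extG q a b).Adj (.inr (.inr x)) (.inr (.inl j)) then 1 else 0) =
      a := by
    simp [adj_rr, sd]
  have h6 : (if (x : ℕ) + 1 < b then 1 else 0) ≤
      ∑ j : Fin b, (if (extG q a b).Adj (.inr (.inr x)) (.inr (.inr j)) then 1 else 0) := by
    split_ifs with hx
    · obtain ⟨y, hy⟩ := partner x hx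
      have h7 : (extG q a b).Adj (.inr (.inr x)) (.inr (.inr y)) := Or.inr hy
      refine le_trans ?_ (Finset.single_le_sum (fun _ _ => Nat.zero_le _) (mem_univ y))
      rw [if_pos h7]
    · exact Nat.zero_le _
  omega

theorem sum_part (a : ℕ) : a ≤ ∑ x : Fin a, (if (x : ℕ) + 1 < a then 1 else 0) + 1 := by
  rcases a with _ | a
  · simp
  · rw [Fin.sum_univ_castSucc]
    have : ∀ x : Fin a, (if ((Fin.castSucc x : Fin (a + 1)) : ℕ) + 1 < a + 1 then 1 else 0) = 1 := by
      intro x
      rw [if_pos]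
      have := x.2
      simp
    rw [Finset.sum_congr rfl (fun x _ => this x)]
    simp

theorem edges_extG (q a b : ℕ) :
    q * (q + a + b) + a * (q + b) + b * (q + a) + a + b ≤
      2 * (extG q a b).edgeFinset.card + q + 2 := by
  rw [← sum_degrees_eq_twice_card_edges, Fintype.sum_sum_type, Fintype.sum_sum_type]
  have h1 : q * (q + a + b) ≤ ∑ i : Fin q, (extG q a b).degree (.inl i) + q := by
    have h := Finset.sum_le_sum (fun (i : Fin q) (_ : i ∈ Finset.univ) => deg_inl q a b i)
    have h4 : ∑ _x : Fin q, (q + a + b) = q * (q + a + b) := by simp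
    rw [h4, Finset.sum_add_distrib] at h
    simpa using h
  have h2 : a * (q + b) + a ≤ ∑ x : Fin a, (extG q a b).degree (.inr (.inl x)) + 1 := by
    have h := Finset.sum_le_sum (fun (i : Fin a) (_ : i ∈ Finset.univ) => deg_inr_inl q a b i)
    rw [Finset.sum_add_distrib] at h
    have h3 := sum_part a
    have h4 : ∑ _x : Fin a, (q + b) = a * (q + b) := by simp
    omega
  have h3 : b * (q + a) + b ≤ ∑ x : Fin b, (extG q a b).degree (.inr (.inr x)) + 1 := by
    have h := Finset.sum_le_sum (fun (i : Fin b) (_ : i ∈ Finset.univ) => deg_inr_inr q a b i)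
    rw [Finset.sum_add_distrib] at h
    have h3 := sum_part b
    have h4 : ∑ _x : Fin b, (q + a) = b * (q + a) := by simp
    omega
  omega

end Pool.Agent.W5h11.Wheels
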