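import Mathlib

set_option autoImplicit false

namespace Pool.Agent.W5h11.Wheels

open SimpleGraph Finset

/-- The vertex-disjoint union of the graphs `G i`, `i : Fin m`. -/
def disjUnion {m : ℕ} {T : Fin m → Type} (G : (i : Fin m) → SimpleGraph (T i)) :
    SimpleGraph (Σ i, T i) where
  Adj x y := ∃ h : x.1 = y.1, (G y.1).Adj (h ▸ x.2) y.2
  symm := ⟨by
    rintro ⟨i, a⟩ ⟨j, b⟩ ⟨h, h'⟩
    dsimp only at h
    subst h
    exact ⟨rfl, h'.symm⟩⟩
  loopless := ⟨by
    rintro ⟨i, a⟩ ⟨h, h'⟩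
    exact (G i).loopless.irrefl _ h'⟩

/-- The wheel `W_{2k+1}`: the hub `none` is joined to all vertices of a cycle `C_{2k}` with the
vertices `some i`, `i : Fin (2 * k)`. -/
def wheel (k : ℕ) : SimpleGraph (Option (Fin (2 * k))) where
  Adj
    | none, none => False
    | none, some _ => True
    | some _, none => True
    | some i, some j => (cycleGraph (2 * k)).Adj i j
  symm := ⟨by
    rintro (_ | i) (_ | j) h
    · exact h
    · trivial
    · trivial
    · exact (cycleGraph (2 * k)).symm.symm _ _ h⟩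
  loopless := ⟨by
    rintro (_ | i) h
    · exact h
    · exact (cycleGraph (2 * k)).loopless.irrefl _ h⟩

/-- `F = W_{2k_1+1} ∪ ... ∪ W_{2k_m+1}` (vertex-disjoint union). -/
def wheels {m : ℕ} (k : Fin m → ℕ) : SimpleGraph (Σ i, Option (Fin (2 * k i))) :=
  disjUnion fun i => wheel (k i)

/-- `F* = S_{k_1+1} ∪ ... ∪ S_{k_m+1}` (vertex-disjoint union), where `S_{k+1} = K_{1,k}` is the star
with `k + 1` vertices and centre `none`. -/
def stars {m : ℕ} (k : Fin m → ℕ) : SimpleGraph (Σ i, Option (Fin (k i))) :=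
  disjUnion fun i => starGraph (none : Option (Fin (k i)))

/-- The conjectured value `max_{1 ≤ n₀ ≤ n} (n₀ (n - n₀) + ex(n₀, F*) + 1)`. -/
noncomputable def conjValue {m : ℕ} (k : Fin m → ℕ) (n : ℕ) : ℕ :=
  (Finset.Icc 1 n).sup fun n₀ => n₀ * (n - n₀) + extremalNumber n₀ (stars k) + 1

variable {V : Type*}

/-- The map of the vertices of a star forest given by centres and leaves. -/
def starMap {m : ℕ} {k : Fin m → ℕ} (c : Fin m → V) (f : (i : Fin m) → Fin (k i) → V) :
    (Σ i, Option (Fin (k i))) → V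
  | ⟨i, none⟩ => c i
  | ⟨i, some j⟩ => f i j

theorem stars_contained {m : ℕ} {k : Fin m → ℕ} (G : SimpleGraph V) (c : Fin m → V)
    (f : (i : Fin m) → Fin (k i) → V) (hinj : Function.Injective (starMap c f))
    (hadj : ∀ i j, G.Adj (c i) (f i j)) : stars k ⊑ G := by
  refine ⟨⟨⟨starMap c f, ?_⟩, hinj⟩⟩
  rintro ⟨i, a⟩ ⟨j, b⟩ ⟨h, h'⟩
  dsimp only at h
  subst h
  dsimp only at h'
  rw [starGraph_adj] at h'
  obtain ⟨hne, h1 | h1⟩ := h'
  · subst h1
    cases b with
    | none => exact absurd rfl hne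
    | some b => exact hadj i b
  · subst h1
    cases a with
    | none => exact absurd rfl hne
    | some a => exact (hadj i a).symm

theorem stars_of_contained {m : ℕ} {k : Fin m → ℕ} (G : SimpleGraph V) (h : stars k ⊑ G) :
    ∃ (c : Fin m → V) (f : (i : Fin m) → Fin (k i) → V), Function.Injective (starMap c f) ∧
      ∀ i j, G.Adj (c i) (f i j) := by
  obtain ⟨φ⟩ := h
  refine ⟨fun i => φ ⟨i, none⟩, fun i j => φ ⟨i, some j⟩, ?_, ?_⟩
  · have : starMap (fun i => φ ⟨i, none⟩) (fun i j => φ ⟨i, some j⟩) = φ := by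
      funext x
      obtain ⟨i, a⟩ := x
      cases a <;> rfl
    rw [this]
    exact φ.injective
  · intro i j
    apply φ.toHom.map_adj
    exact ⟨rfl, by simp⟩

end Pool.Agent.W5h11.Wheels
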