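import Pool.Agent.W5h11.Wheels.Defs

set_option autoImplicit false
set_option linter.unusedSectionVars false

namespace Pool.Agent.W5h11.Wheels

open SimpleGraph Finset

/-- the side of a vertex -/
def sd {a b : ℕ} : Fin a ⊕ Fin b → Bool
  | .inl _ => false
  | .inr _ => true

/-- the number of a vertex within its side -/
def vl {a b : ℕ} : Fin a ⊕ Fin b → ℕ
  | .inl x => x
  | .inr x => x

theorem sd_vl {a b : ℕ} {u v : Fin a ⊕ Fin b} (h1 : sd u = sd v) (h2 : vl u = vl v) : u = v := by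
  rcases u with x | x <;> rcases v with y | y <;> simp_all [sd, vl, Fin.ext_iff]

/-- `q` universal vertices, and a complete bipartite graph with sides of sizes `a`, `b`, with a
maximum matching added in both sides. -/
def extG (q a b : ℕ) : SimpleGraph (Fin q ⊕ (Fin a ⊕ Fin b)) where
  Adj
    | .inl i, .inl j => i ≠ j
    | .inl _, .inr _ => True
    | .inr _, .inl _ => True
    | .inr u, .inr v => sd u ≠ sd v ∨ (vl u ≠ vl v ∧ vl u / 2 = vl v / 2)
  symm := ⟨by
    rintro (i | u) (j | v) h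
    · exact Ne.symm h
    · trivial
    · trivial
    · rcases h with h | ⟨h1, h2⟩
      · exact Or.inl h.symm
      · exact Or.inr ⟨h1.symm, h2.symm⟩⟩
  loopless := ⟨by
    rintro (i | u) h
    · exact h rfl
    · rcases h with h | ⟨h1, h2⟩
      · exact h rfl
      · exact h1 rfl⟩

instance (q a b : ℕ) : DecidableRel (extG q a b).Adj := fun x y => by
  rcases x with i | u <;> rcases y with j | v
  · exact inferInstanceAs (Decidable (i ≠ j))
  · exact isTrue trivial
  · exact isTrue trivial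
  · exact inferInstanceAs (Decidable (sd u ≠ sd v ∨ (vl u ≠ vl v ∧ vl u / 2 = vl v / 2)))

theorem extG_free {q a b : ℕ} (k : Fin (q + 1) → ℕ) (hk : ∀ i, 2 ≤ k i) :
    (wheels k).Free (extG q a b) := by
  rintro ⟨φ⟩
  -- a wheel without universal vertices
  obtain ⟨i, hi⟩ : ∃ i, ∀ x, ∀ y, φ ⟨i, x⟩ ≠ Sum.inl y := by
    by_contra hcon
    push Not at hcon
    choose x y hxy using hcon
    have hy : Function.Injective y := by
      intro i j hij
      have : φ ⟨i, x i⟩ = φ ⟨j, x j⟩ := by rw [hxy, hxy, hij]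
      have := φ.injective this
      rw [Sigma.mk.injEq] at this
      exact this.1
    have := Fintype.card_le_of_injective y hy
    simp at this
  have hr : ∀ x, ∃ u, φ ⟨i, x⟩ = Sum.inr u := by
    intro x
    rcases h : φ ⟨i, x⟩ with y | u
    · exact absurd h (hi x y)
    · exact ⟨u, rfl⟩
  choose u hu using hr
  have huinj : Function.Injective u := by
    intro x y hxy
    have : φ ⟨i, x⟩ = φ ⟨i, y⟩ := by rw [hu, hu, hxy]
    have := φ.injective this
    rw [Sigma.mk.injEq] at this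
    exact eq_of_heq this.2
  have hadj : ∀ x y, (wheel (k i)).Adj x y →
      sd (u x) ≠ sd (u y) ∨ (vl (u x) ≠ vl (u y) ∧ vl (u x) / 2 = vl (u y) / 2) := by
    intro x y hxy
    have h1 : (extG q a b).Adj (φ ⟨i, x⟩) (φ ⟨i, y⟩) := φ.toHom.map_adj ⟨rfl, hxy⟩
    rw [hu, hu] at h1
    exact h1
  obtain ⟨l, hl⟩ : ∃ l, 2 * k i = l + 2 + 2 := ⟨2 * k i - 4, by have := hk i; omega⟩
  have hcyc : ∀ x y : Fin (2 * k i), (cycleGraph (2 * k i)).Adj x y →
      sd (u (some x)) ≠ sd (u (some y)) ∨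
        (vl (u (some x)) ≠ vl (u (some y)) ∧ vl (u (some x)) / 2 = vl (u (some y)) / 2) :=
    fun x y hxy => hadj _ _ hxy
  have hhub : ∀ x : Fin (2 * k i), sd (u none) ≠ sd (u (some x)) ∨
        (vl (u none) ≠ vl (u (some x)) ∧ vl (u none) / 2 = vl (u (some x)) / 2) :=
    fun x => hadj _ _ trivial
  have hinj2 : ∀ x y : Fin (2 * k i), sd (u (some x)) = sd (u (some y)) →
      vl (u (some x)) = vl (u (some y)) → x = y := by
    intro x y h1 h2
    exact Option.some_injective _ (huinj (sd_vl h1 h2))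
  generalize hc : (fun x : Fin (2 * k i) => u (some x)) = c at *
  have hc' : ∀ x, u (some x) = c x := fun x => congrFun hc x
  simp only [hc'] at hcyc hhub hinj2
  generalize u none = h0 at *
  clear hc' hc hadj huinj hu hi
  generalize 2 * k i = N at *
  subst hl
  -- at most one vertex of the cycle lies on the side of the hub
  obtain ⟨t, ht⟩ : ∃ t : Fin (l + 2 + 2), ∀ x, x ≠ t → sd h0 ≠ sd (c x) := by
    by_cases hex : ∃ t, sd h0 = sd (c t)
    · obtain ⟨t, ht⟩ := hex
      refine ⟨t, fun x hx hs => hx ?_⟩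
      apply hinj2 x t (hs.symm.trans ht)
      have h1 := (hhub x).resolve_left (fun h => h hs)
      have h2 := (hhub t).resolve_left (fun h => h ht)
      omega
    · push Not at hex
      exact ⟨0, fun x _ => hex x⟩
  have v1 : ((1 : Fin (l + 2 + 2)) : ℕ) = 1 := rfl
  have v2 : ((1 + 1 : Fin (l + 2 + 2)) : ℕ) = 2 := by
    rw [Fin.val_add, v1, Nat.mod_eq_of_lt (by omega)]
  have v3 : ((1 + 1 + 1 : Fin (l + 2 + 2)) : ℕ) = 3 := by
    rw [Fin.val_add, v2, v1, Nat.mod_eq_of_lt (by omega)]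
  have n1 : (1 : Fin (l + 2 + 2)) ≠ 0 := by
    intro h
    rw [h] at v1
    simp at v1
  have n2 : (1 + 1 : Fin (l + 2 + 2)) ≠ 0 := by
    intro h
    rw [h] at v2
    simp at v2
  have n3 : (1 + 1 + 1 : Fin (l + 2 + 2)) ≠ 0 := by
    intro h
    rw [h] at v3
    simp at v3
  have e1 : t + 1 ≠ t := fun h => n1 (add_eq_left.1 h)
  have e2 : t + 1 + 1 ≠ t := fun h =>
    n2 (add_eq_left.1 ((add_assoc t 1 1).symm.trans h))
  have e3 : t + 1 + 1 + 1 ≠ t := fun h =>
    n3 (add_eq_left.1 (((add_assoc t (1 + 1) 1).symm.trans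
      (congrArg (fun x => x + 1) (add_assoc t 1 1).symm)).trans h))
  have e4 : t + 1 + 1 + 1 ≠ t + 1 := fun h =>
    n2 (add_eq_left.1 ((add_assoc (t + 1) 1 1).symm.trans h))
  have a1 : (cycleGraph (l + 2 + 2)).Adj (t + 1) (t + 1 + 1) := by
    rw [cycleGraph_adj]
    right
    simp
  have a2 : (cycleGraph (l + 2 + 2)).Adj (t + 1 + 1) (t + 1 + 1 + 1) := by
    rw [cycleGraph_adj]
    right
    simp
  have s1 := ht _ e1
  have s2 := ht _ e2
  have s3 := ht _ e3
  have s12 : sd (c (t + 1)) = sd (c (t + 1 + 1)) := by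
    revert s1 s2
    cases sd h0 <;> cases sd (c (t + 1)) <;> cases sd (c (t + 1 + 1)) <;> simp
  have s23 : sd (c (t + 1 + 1)) = sd (c (t + 1 + 1 + 1)) := by
    revert s2 s3
    cases sd h0 <;> cases sd (c (t + 1 + 1)) <;> cases sd (c (t + 1 + 1 + 1)) <;> simp
  have b1 := (hcyc _ _ a1).resolve_left (fun h => h s12)
  have b2 := (hcyc _ _ a2).resolve_left (fun h => h s23)
  apply e4
  apply hinj2 _ _ (s12.trans s23).symm
  omega

end Pool.Agent.W5h11.Wheels
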