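import Pool.Agent.W5h11.Wheels.Defs

set_option autoImplicit false
set_option linter.unusedSectionVars false

namespace Pool.Agent.W5h11.Wheels

open SimpleGraph Finset

variable {V : Type} [Fintype V] [DecidableEq V]

theorem card_image_starMap {m : ℕ} {k : Fin m → ℕ} (c : Fin m → V)
    (f : (i : Fin m) → Fin (k i) → V) :
    (Finset.univ.image (starMap c f)).card ≤ ∑ i, (k i + 1) := by
  refine Finset.card_image_le.trans (le_of_eq ?_)
  rw [Finset.card_univ, Fintype.card_sigma]
  simp

/-- A vertex of large degree can be used as the centre of the largest star. -/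
theorem extend {m : ℕ} {k : Fin (m + 1) → ℕ} (hk : ∀ i, 1 ≤ k i) (G : SimpleGraph V)
    [DecidableRel G.Adj] (v : V) (hv : ∑ i, (k i + 1) ≤ G.degree v)
    (h : stars (fun i : Fin m => k i.succ) ⊑ G.deleteIncidenceSet v) : stars k ⊑ G := by
  obtain ⟨c, f, hinj, hadj⟩ := stars_of_contained _ h
  have hadj' : ∀ i j, G.Adj (c i) (f i j) ∧ c i ≠ v ∧ f i j ≠ v := by
    intro i j
    have := hadj i j
    rwa [deleteIncidenceSet_adj] at this
  have hne : ∀ x, starMap c f x ≠ v := by
    rintro ⟨i, _ | j⟩
    · exact (hadj' i ⟨0, hk i.succ⟩).2.1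
    · exact (hadj' i j).2.2
  set U := Finset.univ.image (starMap c f) with hU
  have hcard : U.card ≤ ∑ i : Fin m, (k i.succ + 1) := card_image_starMap c f
  have hN : k 0 ≤ (G.neighborFinset v \ U).card := by
    have h1 := Finset.le_card_sdiff U (G.neighborFinset v)
    rw [card_neighborFinset_eq_degree] at h1
    rw [Fin.sum_univ_succ] at hv
    omega
  obtain ⟨g⟩ : Nonempty (Fin (k 0) ↪ (G.neighborFinset v \ U : Finset V)) := by
    apply Function.Embedding.nonempty_of_card_le
    rw [Fintype.card_fin, Fintype.card_coe]
    exact hN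
  have hg : ∀ j, G.Adj v (g j) ∧ (g j : V) ∉ U := by
    intro j
    have := (g j).2
    rw [mem_sdiff, mem_neighborFinset] at this
    exact this
  refine stars_contained G (Fin.cons v c : Fin (m + 1) → V)
    (Fin.cons (α := fun i => Fin (k i) → V) (fun j => (g j : V)) f) ?_ ?_
  · have hz : ∀ a : Option (Fin (k 0)),
        starMap (Fin.cons v c : Fin (m + 1) → V)
          (Fin.cons (α := fun i => Fin (k i) → V) (fun j => (g j : V)) f) ⟨0, a⟩ =
        (match a with | none => v | some j => (g j : V)) := by
      rintro (_ | j) <;> simp [starMap]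
    have hs : ∀ (i : Fin m) (a : Option (Fin (k i.succ))),
        starMap (Fin.cons v c : Fin (m + 1) → V)
          (Fin.cons (α := fun i => Fin (k i) → V) (fun j => (g j : V)) f) ⟨i.succ, a⟩ =
        starMap c f ⟨i, a⟩ := by
      rintro i (_ | j) <;> simp [starMap]
    have hzU : ∀ a : Option (Fin (k 0)),
        starMap (Fin.cons v c : Fin (m + 1) → V)
          (Fin.cons (α := fun i => Fin (k i) → V) (fun j => (g j : V)) f) ⟨0, a⟩ ∉ U := by
      rintro (_ | j)
      · rw [hz]
        intro h
        obtain ⟨x, -, hx⟩ := Finset.mem_image.1 h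
        exact hne x hx
      · rw [hz]
        exact (hg j).2
    rintro ⟨i, a⟩ ⟨j, b⟩ hab
    refine Fin.cases (motive := fun i => ∀ a, starMap _ _ ⟨i, a⟩ = starMap _ _ ⟨j, b⟩ →
      (⟨i, a⟩ : Σ i, Option (Fin (k i))) = ⟨j, b⟩) ?_ ?_ i a hab
    · intro a hab
      refine Fin.cases (motive := fun j => ∀ b, starMap _ _ ⟨0, a⟩ = starMap _ _ ⟨j, b⟩ →
        (⟨0, a⟩ : Σ i, Option (Fin (k i))) = ⟨j, b⟩) ?_ ?_ j b hab
      · intro b hab
        rw [hz, hz] at hab
        congr 1
        rcases a with _ | a <;> rcases b with _ | b
        · rfl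
        · exact absurd hab ((hg b).1.ne)
        · exact absurd hab.symm ((hg a).1.ne)
        · have : g a = g b := Subtype.ext hab
          rw [g.injective this]
      · intro j b hab
        exfalso
        apply hzU a
        rw [hab, hs]
        exact Finset.mem_image_of_mem _ (Finset.mem_univ _)
    · intro i a hab
      refine Fin.cases (motive := fun j => ∀ b, starMap _ _ ⟨i.succ, a⟩ = starMap _ _ ⟨j, b⟩ →
        (⟨i.succ, a⟩ : Σ i, Option (Fin (k i))) = ⟨j, b⟩) ?_ ?_ j b hab
      · intro b hab
        exfalso
        apply hzU b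
        rw [← hab, hs]
        exact Finset.mem_image_of_mem _ (Finset.mem_univ _)
      · intro j b hab
        rw [hs, hs] at hab
        have := hinj hab
        rw [Sigma.mk.injEq] at this
        obtain ⟨rfl, h2⟩ := this
        rw [eq_of_heq h2]
  · intro i
    refine Fin.cases ?_ (fun i => ?_) i
    · intro j
      simpa using (hg j).1
    · intro j
      simpa using (hadj' i j).1

/-- the closed neighbourhood -/
def cN (G : SimpleGraph V) [DecidableRel G.Adj] (u : V) : Finset V := insert u (G.neighborFinset u)

theorem card_cN_le (G : SimpleGraph V) [DecidableRel G.Adj] (u : V) :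
    (cN G u).card ≤ G.degree u + 1 := by
  rw [cN, ← card_neighborFinset_eq_degree]
  exact Finset.card_insert_le _ _

/-- In a graph of bounded degree without the star forest only few vertices have degree at least
the size of the largest star. -/
theorem few_large {m D K : ℕ} {k : Fin m → ℕ} (hkK : ∀ i, k i ≤ K) (G : SimpleGraph V)
    [DecidableRel G.Adj] (hD : ∀ v, G.degree v < D) (h : (stars k).Free G) :
    (Finset.univ.filter fun v => K ≤ G.degree v).card ≤ m * (D * D) := by
  classical
  set L := Finset.univ.filter fun v => K ≤ G.degree v with hL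
  have hcN : ∀ u, (cN G u).card ≤ D := fun u => (card_cN_le G u).trans (hD u)
  obtain ⟨M, hM, hmax⟩ := Finset.exists_max_image
    (L.powerset.filter fun M => ∀ u ∈ M, ∀ w ∈ M, u ≠ w → Disjoint (cN G u) (cN G w))
    Finset.card ⟨∅, by simp⟩
  rw [mem_filter, mem_powerset] at hM
  obtain ⟨hML, hdis⟩ := hM
  have hMm : M.card ≤ m := by
    by_contra hcon
    push Not at hcon
    apply h
    obtain ⟨c⟩ : Nonempty (Fin m ↪ M) := by
      apply Function.Embedding.nonempty_of_card_le
      rw [Fintype.card_fin, Fintype.card_coe]
      exact hcon.le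
    have hg : ∀ i, Nonempty (Fin (k i) ↪ G.neighborFinset (c i : V)) := by
      intro i
      apply Function.Embedding.nonempty_of_card_le
      rw [Fintype.card_fin, Fintype.card_coe, card_neighborFinset_eq_degree]
      exact (hkK i).trans (mem_filter.1 (hML (c i).2)).2
    have g : ∀ i, (Fin (k i) ↪ G.neighborFinset (c i : V)) := fun i => (hg i).some
    have hadj : ∀ i j, G.Adj (c i : V) (g i j : V) := by
      intro i j
      have := (g i j).2
      rwa [mem_neighborFinset] at this
    refine stars_contained G (fun i => (c i : V)) (fun i j => (g i j : V)) ?_ hadj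
    have hmem : ∀ i a, starMap (fun i => (c i : V)) (fun i j => (g i j : V)) ⟨i, a⟩ ∈
        cN G (c i : V) := by
      rintro i (_ | j)
      · exact Finset.mem_insert_self _ _
      · refine Finset.mem_insert_of_mem ?_
        rw [mem_neighborFinset]
        exact hadj i j
    rintro ⟨i, a⟩ ⟨j, b⟩ hab
    have hij : i = j := by
      by_contra hne
      have h1 : (c i : V) ≠ c j := fun h => hne (c.injective (Subtype.ext h))
      have h2 := hdis _ (c i).2 _ (c j).2 h1
      rw [Finset.disjoint_left] at h2
      refine h2 (hmem i a) ?_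
      rw [hab]
      exact hmem j b
    subst hij
    congr 1
    rcases a with _ | a <;> rcases b with _ | b
    · rfl
    · exact absurd hab (hadj i b).ne
    · exact absurd hab.symm (hadj i a).ne
    · have : g i a = g i b := Subtype.ext hab
      rw [(g i).injective this]
  have hsub : L ⊆ M.biUnion fun u => (cN G u).biUnion fun w => cN G w := by
    intro v hv
    rw [mem_biUnion]
    by_cases hvM : v ∈ M
    · refine ⟨v, hvM, ?_⟩
      rw [mem_biUnion]
      exact ⟨v, Finset.mem_insert_self _ _, Finset.mem_insert_self _ _⟩
    · by_contra hcon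
      push Not at hcon
      have hins : insert v M ∈
          L.powerset.filter fun M => ∀ u ∈ M, ∀ w ∈ M, u ≠ w → Disjoint (cN G u) (cN G w) := by
        rw [mem_filter, mem_powerset]
        refine ⟨Finset.insert_subset hv hML, ?_⟩
        have key : ∀ u ∈ M, Disjoint (cN G v) (cN G u) := by
          intro u hu
          rw [Finset.disjoint_left]
          intro w hw1 hw2
          apply hcon u hu
          rw [mem_biUnion]
          refine ⟨w, hw2, ?_⟩
          unfold cN at hw1 ⊢
          rw [mem_insert, mem_neighborFinset] at hw1 ⊢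
          rcases hw1 with h1 | h1
          · exact Or.inl h1.symm
          · exact Or.inr h1.symm
        intro u hu w hw huw
        rw [mem_insert] at hu hw
        rcases hu with rfl | hu <;> rcases hw with rfl | hw
        · exact absurd rfl huw
        · exact key w hw
        · exact (key u hu).symm
        · exact hdis u hu w hw huw
      have := hmax _ hins
      rw [card_insert_of_notMem hvM] at this
      omega
  calc L.card ≤ (M.biUnion fun u => (cN G u).biUnion fun w => cN G w).card := card_le_card hsub
    _ ≤ M.card * (D * D) := by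
        refine card_biUnion_le_card_mul _ _ _ fun u _ => ?_
        refine (card_biUnion_le_card_mul _ _ D fun w _ => hcN w).trans ?_
        exact Nat.mul_le_mul_right _ (hcN u)
    _ ≤ m * (D * D) := Nat.mul_le_mul_right _ hMm

/-- The upper bound for the number of edges without the star forest. -/
theorem stars_upper : ∀ (m : ℕ) (k : Fin m → ℕ), (∀ i, 1 ≤ k i) → (∀ i, k i ≤ 2 * (m - i)) →
    Antitone k → ∃ C : ℕ, ∀ (V : Type) [Fintype V] [DecidableEq V] (G : SimpleGraph V)
      [DecidableRel G.Adj], (stars k).Free G →
      2 * G.edgeFinset.card + Fintype.card V ≤ 2 * m * Fintype.card V + C := by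
  intro m
  induction m with
  | zero =>
    intro k _ _ _
    refine ⟨0, fun V _ _ G _ h => ?_⟩
    exact absurd IsContained.of_isEmpty h
  | succ m ih =>
    intro k hk1 hk2 hk3
    obtain ⟨C', hC'⟩ := ih (fun i => k i.succ) (fun i => hk1 _)
      (fun i => by
        have := hk2 i.succ
        rw [Fin.val_succ] at this
        omega)
      (fun i j hij => hk3 (Fin.succ_le_succ_iff.2 hij))
    obtain ⟨D, hD⟩ : ∃ D, D = ∑ i, (k i + 1) := ⟨_, rfl⟩
    refine ⟨C' + D * ((m + 1) * (D * D)), fun V _ _ G _ hfree => ?_⟩
    by_cases hv : ∃ v, D ≤ G.degree v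
    · obtain ⟨v, hv⟩ := hv
      have h1 : (stars fun i : Fin m => k i.succ).Free (G.deleteIncidenceSet v) := by
        intro hcon
        exact hfree (extend hk1 G v (hD ▸ hv) hcon)
      have h2 := hC' V (G.deleteIncidenceSet v) h1
      have h3 := G.card_edgeFinset_deleteIncidenceSet v
      have h4 : G.degree v ≤ Fintype.card V := (G.degree_lt_card_verts v).le
      have h5 : 2 * (m + 1) * Fintype.card V = 2 * m * Fintype.card V + 2 * Fintype.card V := by
        ring
      omega
    · push Not at hv
      have hK : ∀ i, k i ≤ k 0 := fun i => hk3 (Fin.zero_le i)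
      have h1 := few_large hK G hv hfree
      have h2 : k 0 ≤ 2 * (m + 1) := by
        have := hk2 0
        simpa using this
      have h3 := G.sum_degrees_eq_twice_card_edges
      set L := Finset.univ.filter fun v => k 0 ≤ G.degree v with hL
      have h4 : ∑ v, (G.degree v + 1) ≤ ∑ v, (k 0 + if v ∈ L then D else 0) := by
        refine Finset.sum_le_sum fun v _ => ?_
        by_cases hvL : v ∈ L
        · rw [if_pos hvL]
          have := hv v
          omega
        · rw [if_neg hvL]
          have : G.degree v < k 0 := by
            by_contra hcon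
            push Not at hcon
            exact hvL (mem_filter.2 ⟨mem_univ _, hcon⟩)
          omega
      rw [Finset.sum_add_distrib, Finset.sum_add_distrib, h3, Finset.sum_const, Finset.sum_const,
        Finset.card_univ, ← Finset.sum_filter, Finset.sum_const] at h4
      have h5 : (Finset.univ.filter fun v => v ∈ L) = L := by
        ext v
        simp
      rw [h5] at h4
      simp only [smul_eq_mul, mul_one] at h4
      have h6 : L.card * D ≤ D * ((m + 1) * (D * D)) := by
        rw [mul_comm]
        exact Nat.mul_le_mul_left _ h1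
      have h7 : Fintype.card V * k 0 ≤ 2 * (m + 1) * Fintype.card V := by
        rw [mul_comm]
        exact Nat.mul_le_mul_right _ h2
      omega

end Pool.Agent.W5h11.Wheels
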